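import Pool.Agent.Helper53_C4W.Stm2

/-!
# LFT: the left over arcs
-/

set_option autoImplicit false
set_option linter.unusedSectionVars false

open scoped BigOperators Classical Topology
open Filter

noncomputable section

namespace Pool.Agent.C4W.H66

open Pool.Agent.C4W
open Pool.Agent.C4M (IsNbd)

/-! ## numbers -/

theorem expo (c a A : ℝ) (hc : 0 < c) (ha : 0 < a) (hA : 0 < A) :
    ∀ᶠ k : ℕ in atTop, Real.exp (-(c * (k : ℝ) ^ a)) ≤ A * (k : ℝ) ^ (-40 : ℝ) := by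
  have h1 := tendsto_rpow_mul_exp_neg_mul_atTop_nhds_zero (40 / a) c hc
  have h2 : Tendsto (fun k : ℕ => (k : ℝ) ^ a) atTop atTop :=
    (tendsto_rpow_atTop ha).comp tendsto_natCast_atTop_atTop
  have h3 := (h1.comp h2).eventually_le_const hA
  filter_upwards [h3, eventually_ge_atTop 1] with k hk hk1
  have hk0 : (0 : ℝ) < k := by exact_mod_cast hk1
  simp only [Function.comp] at hk
  have h4 : ((k : ℝ) ^ a) ^ (40 / a) = (k : ℝ) ^ (40 : ℝ) := by
    rw [← Real.rpow_mul hk0.le]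
    congr 1
    field_simp
  rw [h4] at hk
  have h5 : (0 : ℝ) < (k : ℝ) ^ (-40 : ℝ) := Real.rpow_pos_of_pos hk0 _
  have h6 : (k : ℝ) ^ (-40 : ℝ) * (k : ℝ) ^ (40 : ℝ) = 1 := by
    rw [← Real.rpow_add hk0]; norm_num
  calc Real.exp (-(c * (k : ℝ) ^ a))
      = (k : ℝ) ^ (-40 : ℝ) * ((k : ℝ) ^ (40 : ℝ) * Real.exp (-c * (k : ℝ) ^ a)) := by
        rw [← mul_assoc, h6, one_mul]
        congr 1
        ring
    _ ≤ (k : ℝ) ^ (-40 : ℝ) * A := mul_le_mul_of_nonneg_left hk h5.le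
    _ = _ := mul_comm _ _

/-- the numerical facts -/
structure LNum (k : ℕ) : Prop where
  one : 1 ≤ k
  n1 : Real.exp (-(1 / 4 * (k : ℝ) ^ (0.01 : ℝ))) ≤ 1 / 100 * (k : ℝ) ^ (-40 : ℝ)
  n2 : Real.exp (-(1 / 16 * (k : ℝ) ^ (0.325 : ℝ))) ≤ 1 / 100 * (k : ℝ) ^ (-40 : ℝ)
  n3 : Real.exp (-(1 * (k : ℝ) ^ (0.01 : ℝ))) ≤ 1 / 100 * (k : ℝ) ^ (-40 : ℝ)
  n4 : 100 ≤ (k : ℝ) ^ (0.4275 : ℝ)

theorem lnum : ∃ k0 : ℕ, ∀ k, k0 ≤ k → LNum k := by
  have h : ∀ᶠ k : ℕ in atTop, LNum k := by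
    filter_upwards [eventually_ge_atTop 1,
      expo (1 / 4) 0.01 (1 / 100) (by norm_num) (by norm_num) (by norm_num),
      expo (1 / 16) 0.325 (1 / 100) (by norm_num) (by norm_num) (by norm_num),
      expo 1 0.01 (1 / 100) (by norm_num) (by norm_num) (by norm_num),
      ((tendsto_rpow_atTop (show (0 : ℝ) < 0.4275 by norm_num)).comp
        tendsto_natCast_atTop_atTop).eventually_ge_atTop 100] with k h1 h2 h3 h4 h5
    exact ⟨h1, h2, h3, h4, h5⟩
  exact eventually_atTop.1 h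

/-- consequences for the parameters -/
structure LFac (k M s : ℕ) : Prop where
  k0 : (0 : ℝ) < k
  M0 : (0 : ℝ) < M
  kM : (k : ℝ) / M ≤ (k : ℝ) ^ (0.47 : ℝ)
  s0 : (k : ℝ) ^ (0.8975 : ℝ) ≤ s * (k : ℝ) ^ (-0.1 : ℝ)
  s1 : s * (k : ℝ) ^ (-0.1 : ℝ) ≤ (k : ℝ) ^ (1.47 : ℝ)
  s2 : 100 * (k : ℝ) ^ (0.47 : ℝ) ≤ s * (k : ℝ) ^ (-0.1 : ℝ)
  a1 : (k : ℝ) ^ (0.24 : ℝ) ≤ (k : ℝ) ^ (0.47 : ℝ)
  a2 : (k : ℝ) ^ (0.01 : ℝ) ≤ (k : ℝ) ^ (0.47 : ℝ)
  e1 : Real.exp (-(((k : ℝ) ^ (0.24 : ℝ)) ^ 2 / (4 * (k : ℝ) ^ (0.47 : ℝ)))) ≤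
    1 / 100 * (k : ℝ) ^ (-40 : ℝ)
  e2 : Real.exp (-((s * (k : ℝ) ^ (-0.1 : ℝ) / 2) ^ 2 / (4 * (k : ℝ) ^ (1.47 : ℝ)))) ≤
    1 / 100 * (k : ℝ) ^ (-40 : ℝ)

theorem lfac {k M s q : ℕ} (hk : LNum k) (hp : Par k M s q) : LFac k M s := by
  have hk0 : (0 : ℝ) < k := by exact_mod_cast hk.one
  have hk1 : (1 : ℝ) ≤ k := by exact_mod_cast hk.one
  have hM0 : (0 : ℝ) < M := lt_of_lt_of_le (Real.rpow_pos_of_pos hk0 _) hp.Mlo
  have hs0 : (0 : ℝ) < s := lt_of_lt_of_le (Real.rpow_pos_of_pos hk0 _) hp.slo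
  have hslo : (k : ℝ) ^ (0.9975 : ℝ) ≤ s := by
    have h := hp.slo
    have h2 : (1 - 1 / 400 : ℝ) = 0.9975 := by norm_num
    rwa [h2] at h
  have hss : (s : ℝ) ≤ k := by exact_mod_cast hp.shi
  have hs1 : (k : ℝ) ^ (0.8975 : ℝ) ≤ s * (k : ℝ) ^ (-0.1 : ℝ) := by
    calc (k : ℝ) ^ (0.8975 : ℝ) = (k : ℝ) ^ (0.9975 : ℝ) * (k : ℝ) ^ (-0.1 : ℝ) := by
          rw [← Real.rpow_add hk0]; norm_num
      _ ≤ _ := mul_le_mul_of_nonneg_right hslo (Real.rpow_pos_of_pos hk0 _).le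
  refine ⟨hk0, hM0, ?_, hs1, ?_, ?_, ?_, ?_, ?_, ?_⟩
  · rw [div_le_iff₀ hM0]
    calc (k : ℝ) = (k : ℝ) ^ (0.47 : ℝ) * (k : ℝ) ^ (0.53 : ℝ) := by
          rw [← Real.rpow_add hk0]; norm_num
      _ ≤ _ := mul_le_mul_of_nonneg_left hp.Mlo (Real.rpow_pos_of_pos hk0 _).le
  · calc (s : ℝ) * (k : ℝ) ^ (-0.1 : ℝ) ≤ k * (k : ℝ) ^ (-0.1 : ℝ) :=
          mul_le_mul_of_nonneg_right hss (Real.rpow_pos_of_pos hk0 _).le
      _ = (k : ℝ) ^ (1 : ℝ) * (k : ℝ) ^ (-0.1 : ℝ) := by rw [Real.rpow_one]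
      _ = (k : ℝ) ^ (0.9 : ℝ) := by rw [← Real.rpow_add hk0]; norm_num
      _ ≤ _ := Real.rpow_le_rpow_of_exponent_le hk1 (by norm_num)
  · have h1 : (k : ℝ) ^ (0.8975 : ℝ) = (k : ℝ) ^ (0.4275 : ℝ) * (k : ℝ) ^ (0.47 : ℝ) := by
      rw [← Real.rpow_add hk0]; norm_num
    have h2 : 100 * (k : ℝ) ^ (0.47 : ℝ) ≤ (k : ℝ) ^ (0.4275 : ℝ) * (k : ℝ) ^ (0.47 : ℝ) :=
      mul_le_mul_of_nonneg_right hk.n4 (Real.rpow_pos_of_pos hk0 _).le
    linarith
  · exact Real.rpow_le_rpow_of_exponent_le hk1 (by norm_num)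
  · exact Real.rpow_le_rpow_of_exponent_le hk1 (by norm_num)
  · have h1 : ((k : ℝ) ^ (0.24 : ℝ)) ^ 2 / (4 * (k : ℝ) ^ (0.47 : ℝ)) =
        1 / 4 * (k : ℝ) ^ (0.01 : ℝ) := by
      have h2 : ((k : ℝ) ^ (0.24 : ℝ)) ^ 2 = (k : ℝ) ^ (0.01 : ℝ) * (k : ℝ) ^ (0.47 : ℝ) := by
        rw [← Real.rpow_natCast, ← Real.rpow_mul hk0.le, ← Real.rpow_add hk0]; norm_num
      rw [h2]
      have h3 : (0 : ℝ) < (k : ℝ) ^ (0.47 : ℝ) := Real.rpow_pos_of_pos hk0 _
      field_simp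
    rw [h1]
    exact hk.n1
  · have h3 : (0 : ℝ) < (k : ℝ) ^ (1.47 : ℝ) := Real.rpow_pos_of_pos hk0 _
    have h4 : (0 : ℝ) < (k : ℝ) ^ (0.8975 : ℝ) := Real.rpow_pos_of_pos hk0 _
    have h1 : 1 / 16 * (k : ℝ) ^ (0.325 : ℝ) ≤
        (s * (k : ℝ) ^ (-0.1 : ℝ) / 2) ^ 2 / (4 * (k : ℝ) ^ (1.47 : ℝ)) := by
      have h2 : ((k : ℝ) ^ (0.8975 : ℝ)) ^ 2 = (k : ℝ) ^ (0.325 : ℝ) * (k : ℝ) ^ (1.47 : ℝ) := by
        rw [← Real.rpow_natCast, ← Real.rpow_mul hk0.le, ← Real.rpow_add hk0]; norm_num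
      rw [le_div_iff₀ (by positivity)]
      have h5 : ((k : ℝ) ^ (0.8975 : ℝ)) ^ 2 ≤ (s * (k : ℝ) ^ (-0.1 : ℝ)) ^ 2 :=
        pow_le_pow_left₀ h4.le hs1 2
      nlinarith
    refine (Real.exp_le_exp.2 ?_).trans hk.n2
    linarith

/-! ## the fixed set `A` -/

section fixed

variable {V : Type} [Fintype V] {M : ℕ} [NeZero M] (N : V → Finset V) (A O : Set (V × V)) (x : V)

/-- arcs of `A` with equal labels -/
def As (h : V → ZMod M) : Set (V × V) := {p | p ∈ A ∧ h p.1 = h p.2}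

/-- out-fluctuation -/
def ap (h : V → ZMod M) (x : V) : ℝ := (outN (As A h) x).card - ((outN A x).card : ℝ) / M

/-- in-fluctuation -/
def am (h : V → ZMod M) (y : V) : ℝ := (inN (As A h) y).card - ((inN A y).card : ℝ) / M

/-- targets for the out-degree -/
def B1 (ω : V → ZMod M) (v : V) : Finset (ZMod M) := if (x, v) ∈ A then {ω x} else ∅

/-- targets for the 2-paths -/
def B2 (ω : V → ZMod M) (u : V) : Finset (ZMod M) :=
  ((outN O x).filter fun y => (u, y) ∈ A).image ω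

/-- targets for the triangles -/
def B3 (r : V → V → Prop) (ω : V → ZMod M) (v : V) : Finset (ZMod M) :=
  if (x, v) ∈ O then ((N x).filter fun u => (u, v) ∈ A ∧ r v u).image ω else ∅

/-- the conditioned vertices for the triangles -/
def W3 (r : V → V → Prop) : Finset V :=
  Finset.univ.filter fun w => ¬ ((x, w) ∈ O ∧ ∃ u ∈ N x, (u, w) ∈ A ∧ r w u)

/-- in-neighbours with a property and the same label -/
def cc (p : V → Prop) (ω : V → ZMod M) (y : V) : ℕ :=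
  (Finset.univ.filter fun u => p u ∧ (u, y) ∈ A ∧ ω u = ω y).card

/-- in-neighbours with a property -/
def dd (p : V → Prop) (y : V) : ℕ := (Finset.univ.filter fun u => p u ∧ (u, y) ∈ A).card

variable {N A O x}

theorem cnt1 (hN : IsNbd N) (hA : ∀ p ∈ A, p.2 ∈ N p.1) (ω : V → ZMod M) :
    cntW {x} (B1 A x) ω = (outN (As A ω) x).card := by
  unfold cntW B1 outN As
  congr 1
  ext v
  simp only [Finset.mem_filter, Finset.mem_univ, true_and, Finset.mem_singleton,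
    Set.mem_ofPred_eq]
  constructor
  · rintro ⟨h1, h2⟩
    split_ifs at h2 with h3
    · exact ⟨h3, (Finset.mem_singleton.1 h2).symm⟩
    · simp at h2
  · rintro ⟨h1, h2⟩
    refine ⟨?_, ?_⟩
    · rintro rfl
      exact hN.irr _ (hA _ h1)
    · rw [if_pos h1]
      exact Finset.mem_singleton.2 h2.symm

theorem mu1 (hN : IsNbd N) (hA : ∀ p ∈ A, p.2 ∈ N p.1) (ω : V → ZMod M) :
    muW {x} (B1 A x) ω = ((outN A x).card : ℝ) / M := by
  unfold muW
  have h1 : ∀ v ∈ Finset.univ.filter (fun v => v ∉ ({x} : Finset V)),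
      ((B1 A x ω v).card : ℝ) / Fintype.card (ZMod M) =
        if v ∈ outN A x then (1 : ℝ) / M else 0 := by
    intro v _
    unfold B1 outN
    simp only [Finset.mem_filter, Finset.mem_univ, true_and]
    split_ifs with h
    · rw [Finset.card_singleton, ZMod.card, Nat.cast_one]
    · simp
  rw [Finset.sum_congr rfl h1, ← Finset.sum_filter, Finset.sum_const, nsmul_eq_mul,
    Finset.filter_filter, mul_one_div]
  congr 3
  ext v
  simp only [Finset.mem_filter, Finset.mem_univ, true_and, Finset.mem_singleton,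
    and_iff_right_iff_imp]
  rintro h rfl
  simp only [outN, Finset.mem_filter, Finset.mem_univ, true_and] at h
  exact hN.irr _ (hA _ h)

theorem dep1 (ω ω' : V → ZMod M) (h : ∀ v ∈ ({x} : Finset V), ω v = ω' v) :
    B1 A x ω = B1 A x ω' := by
  funext v
  unfold B1
  rw [h x (Finset.mem_singleton_self x)]

theorem evP1 {k s q : ℕ} (hC : CHFStmt) (hk : LNum k) (hp : Par k M s q) (hN : IsNbd N)
    (hA : ∀ p ∈ A, p.2 ∈ N p.1) (hd : (outN A x).card ≤ k) :
    ((Finset.univ.filter fun h : V → ZMod M => ¬ |ap A h x| ≤ (k : ℝ) ^ (0.24 : ℝ)).card : ℝ) ≤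
      2 / 100 * (k : ℝ) ^ (-40 : ℝ) * (M : ℝ) ^ Fintype.card V := by
  have hf := lfac hk hp
  have h := (hC V (ZMod M) {x} (B1 A x) dep1
    (Finset.univ.filter fun h : V → ZMod M => ¬ |ap A h x| ≤ (k : ℝ) ^ (0.24 : ℝ))).2
    ((k : ℝ) ^ (0.47 : ℝ)) ((k : ℝ) ^ (0.24 : ℝ)) (Real.rpow_pos_of_pos hf.k0 _)
    (Real.rpow_pos_of_pos hf.k0 _).le hf.a1 (by
      intro ω hω
      rw [cnt1 hN hA, mu1 hN hA]
      simp only [Finset.mem_filter, Finset.mem_univ, true_and, not_le] at hω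
      refine ⟨?_, hω.le⟩
      have hd' : ((outN A x).card : ℝ) ≤ k := by exact_mod_cast hd
      exact (div_le_div_of_nonneg_right hd' hf.M0.le).trans hf.kM)
  rw [ZMod.card] at h
  refine h.trans ?_
  have h2 := hf.e1
  have h3 : (0 : ℝ) < (M : ℝ) ^ Fintype.card V := pow_pos hf.M0 _
  apply mul_le_mul_of_nonneg_right _ h3.le
  linarith

/-! ### the vertices outside `N[x]` -/

theorem uniq (hN : IsNbd N) {u a b : V} (hu : u ≠ x) (ha : a ∈ N x) (hb : b ∈ N x)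
    (ha' : a ∈ N u) (hb' : b ∈ N u) : a = b :=
  Finset.card_le_one.1 (hN.c4 u x hu) a (Finset.mem_inter.2 ⟨ha', ha⟩) b
    (Finset.mem_inter.2 ⟨hb', hb⟩)

theorem mem_outN {S : Set (V × V)} {a b : V} : b ∈ outN S a ↔ (a, b) ∈ S := by
  simp [outN]

theorem cnt2 (hN : IsNbd N) (hA : ∀ p ∈ A, p.2 ∈ N p.1) (hO : ∀ p ∈ O, p.2 ∈ N p.1)
    (ω : V → ZMod M) : cntW (insert x (N x)) (B2 A O x) ω =
      ∑ y ∈ outN O x, cc A (fun u => u ∉ insert x (N x)) ω y := by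
  unfold cntW cc
  rw [← Finset.card_biUnion]
  · congr 1
    ext u
    simp only [Finset.mem_filter, Finset.mem_univ, true_and, Finset.mem_biUnion, B2,
      Finset.mem_image]
    constructor
    · rintro ⟨h1, y, ⟨h2, h3⟩, h4⟩
      exact ⟨y, h2, h1, h3, h4.symm⟩
    · rintro ⟨y, h2, h1, h3, h4⟩
      exact ⟨h1, y, ⟨h2, h3⟩, h4.symm⟩
  · intro y hy y' hy' hne
    rw [Function.onFun, Finset.disjoint_left]
    intro u hu hu'
    simp only [Finset.mem_filter, Finset.mem_univ, true_and] at hu hu'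
    have hux : u ≠ x := fun h => hu.1 (h ▸ Finset.mem_insert_self _ _)
    exact hne (uniq hN hux (hO _ (mem_outN.1 hy)) (hO _ (mem_outN.1 hy')) (hA _ hu.2.1)
      (hA _ hu'.2.1))

theorem mu2 (hN : IsNbd N) (hA : ∀ p ∈ A, p.2 ∈ N p.1) (hO : ∀ p ∈ O, p.2 ∈ N p.1)
    (ω : V → ZMod M) : muW (insert x (N x)) (B2 A O x) ω =
      ((∑ y ∈ outN O x, dd A (fun u => u ∉ insert x (N x)) y : ℕ) : ℝ) / M := by
  unfold muW
  have h1 : ∀ u ∈ Finset.univ.filter (fun u => u ∉ insert x (N x)),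
      ((B2 A O x ω u).card : ℝ) / Fintype.card (ZMod M) =
        (∑ y ∈ outN O x, if (u, y) ∈ A then (1 : ℝ) else 0) / M := by
    intro u hu
    simp only [Finset.mem_filter, Finset.mem_univ, true_and] at hu
    have hux : u ≠ x := fun h => hu (h ▸ Finset.mem_insert_self _ _)
    rw [ZMod.card]
    congr 1
    unfold B2
    rw [Finset.card_image_of_injOn, Finset.card_filter]
    · push_cast
      rfl
    · intro a ha b hb _
      simp only [Finset.coe_filter, Set.mem_ofPred_eq] at ha hb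
      exact uniq hN hux (hO _ (mem_outN.1 ha.1)) (hO _ (mem_outN.1 hb.1)) (hA _ ha.2)
        (hA _ hb.2)
  rw [Finset.sum_congr rfl h1, ← Finset.sum_div]
  congr 1
  rw [Finset.sum_comm]
  push_cast
  apply Finset.sum_congr rfl
  intro y _
  unfold dd
  rw [← Finset.sum_filter, Finset.filter_filter, Finset.sum_const, nsmul_eq_mul, mul_one,
    Nat.cast_inj]
  apply congrArg
  ext u
  simp only [Finset.mem_filter]

theorem dep2 (hO : ∀ p ∈ O, p.2 ∈ N p.1) (ω ω' : V → ZMod M)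
    (h : ∀ v ∈ insert x (N x), ω v = ω' v) : B2 A O x ω = B2 A O x ω' := by
  funext u
  unfold B2
  apply Finset.image_congr
  intro y hy
  simp only [Finset.coe_filter, Set.mem_ofPred_eq] at hy
  exact h y (Finset.mem_insert_of_mem (hO _ (mem_outN.1 hy.1)))

theorem evP2 {k s q : ℕ} (hC : CHFStmt) (hk : LNum k) (hp : Par k M s q) (hN : IsNbd N)
    (hA : ∀ p ∈ A, p.2 ∈ N p.1) (hO : ∀ p ∈ O, p.2 ∈ N p.1)
    (hd : ∀ y, (inN A y).card ≤ k) (hd' : (outN O x).card ≤ k) :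
    ((Finset.univ.filter fun ω : V → ZMod M => s * (k : ℝ) ^ (-0.1 : ℝ) / 2 ≤
      |((∑ y ∈ outN O x, cc A (fun u => u ∉ insert x (N x)) ω y : ℕ) : ℝ) -
        ((∑ y ∈ outN O x, dd A (fun u => u ∉ insert x (N x)) y : ℕ) : ℝ) / M|).card : ℝ) ≤
      2 / 100 * (k : ℝ) ^ (-40 : ℝ) * (M : ℝ) ^ Fintype.card V := by
  have hf := lfac hk hp
  have hk0 := hf.k0
  have hpos : 0 < (k : ℝ) ^ (0.8975 : ℝ) := Real.rpow_pos_of_pos hk0 _
  have h := (hC V (ZMod M) (insert x (N x)) (B2 A O x) (dep2 hO)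
    (Finset.univ.filter fun ω : V → ZMod M => s * (k : ℝ) ^ (-0.1 : ℝ) / 2 ≤
      |((∑ y ∈ outN O x, cc A (fun u => u ∉ insert x (N x)) ω y : ℕ) : ℝ) -
        ((∑ y ∈ outN O x, dd A (fun u => u ∉ insert x (N x)) y : ℕ) : ℝ) / M|)).2
    ((k : ℝ) ^ (1.47 : ℝ)) (s * (k : ℝ) ^ (-0.1 : ℝ) / 2) (Real.rpow_pos_of_pos hk0 _)
    (by have := hf.s0; linarith) (by have := hf.s0; have := hf.s1; linarith) (by
      intro ω hω
      rw [cnt2 hN hA hO, mu2 hN hA hO]
      simp only [Finset.mem_filter, Finset.mem_univ, true_and] at hω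
      refine ⟨?_, hω⟩
      have h1 : ∑ y ∈ outN O x, dd A (fun u => u ∉ insert x (N x)) y ≤ k * k := by
        calc ∑ y ∈ outN O x, dd A (fun u => u ∉ insert x (N x)) y
            ≤ ∑ y ∈ outN O x, k := by
              apply Finset.sum_le_sum
              intro y _
              refine le_trans (Finset.card_le_card ?_) (hd y)
              intro u hu
              simp only [Finset.mem_filter, Finset.mem_univ, true_and, inN] at hu ⊢
              exact hu.2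
          _ = (outN O x).card * k := by rw [Finset.sum_const, smul_eq_mul]
          _ ≤ k * k := Nat.mul_le_mul_right _ hd'
      have h2 : ((∑ y ∈ outN O x, dd A (fun u => u ∉ insert x (N x)) y : ℕ) : ℝ) ≤ k * k := by
        exact_mod_cast h1
      calc ((∑ y ∈ outN O x, dd A (fun u => u ∉ insert x (N x)) y : ℕ) : ℝ) / M
          ≤ k * k / M := div_le_div_of_nonneg_right h2 hf.M0.le
        _ = k * (k / M) := by ring
        _ ≤ k * (k : ℝ) ^ (0.47 : ℝ) := mul_le_mul_of_nonneg_left hf.kM hk0.le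
        _ = (k : ℝ) ^ (1 : ℝ) * (k : ℝ) ^ (0.47 : ℝ) := by rw [Real.rpow_one]
        _ = (k : ℝ) ^ (1.47 : ℝ) := by rw [← Real.rpow_add hk0]; norm_num)
  rw [ZMod.card] at h
  refine h.trans ?_
  have h2 := hf.e2
  have h3 : (0 : ℝ) < (M : ℝ) ^ Fintype.card V := pow_pos hf.M0 _
  apply mul_le_mul_of_nonneg_right _ h3.le
  linarith

/-! ### the neighbours of `x` -/

theorem one3 (hN : IsNbd N) (hA : ∀ p ∈ A, p.2 ∈ N p.1) {v a b : V} (hv : v ≠ x)
    (ha : a ∈ N x) (hb : b ∈ N x) (ha' : (a, v) ∈ A) (hb' : (b, v) ∈ A) : a = b :=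
  uniq hN hv ha hb (hN.symm _ _ (hA _ ha')) (hN.symm _ _ (hA _ hb'))

theorem cnt3 (hN : IsNbd N) (hA : ∀ p ∈ A, p.2 ∈ N p.1) (hO : ∀ p ∈ O, p.2 ∈ N p.1)
    (r : V → V → Prop) (ω : V → ZMod M) :
    ∑ y ∈ outN O x, cc A (fun u => u ∈ N x ∧ r y u) ω y ≤
      cntW (W3 N A O x r) (B3 N A O x r) ω := by
  have h1 : ∀ y ∈ outN O x, cc A (fun u => u ∈ N x ∧ r y u) ω y ≤
      if (∃ u ∈ N x, (u, y) ∈ A ∧ r y u ∧ ω u = ω y) then 1 else 0 := by
    intro y hy
    have hyx : y ≠ x := by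
      rintro rfl
      exact hN.irr _ (hO _ (mem_outN.1 hy))
    unfold cc
    split_ifs with h
    · rw [Finset.card_le_one]
      intro a ha b hb
      simp only [Finset.mem_filter, Finset.mem_univ, true_and] at ha hb
      exact one3 hN hA hyx ha.1.1 hb.1.1 ha.2.1 hb.2.1
    · rw [Nat.le_zero, Finset.card_eq_zero]
      ext a
      simp only [Finset.mem_filter, Finset.mem_univ, true_and, Finset.notMem_empty, iff_false]
      rintro ⟨⟨h2, h3⟩, h4, h5⟩
      exact h ⟨a, h2, h4, h3, h5⟩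
  refine (Finset.sum_le_sum h1).trans ?_
  rw [← Finset.card_filter]
  unfold cntW
  apply Finset.card_le_card
  intro y hy
  simp only [Finset.mem_filter, Finset.mem_univ, true_and] at hy ⊢
  obtain ⟨hy, u, hu, h3, h4, h5⟩ := hy
  have hxy := mem_outN.1 hy
  refine ⟨?_, ?_⟩
  · simp only [W3, Finset.mem_filter, Finset.mem_univ, true_and, not_not]
    exact ⟨hxy, u, hu, h3, h4⟩
  · unfold B3
    rw [if_pos hxy, Finset.mem_image]
    exact ⟨u, Finset.mem_filter.2 ⟨hu, h3, h4⟩, h5⟩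

theorem mu3 (hN : IsNbd N) (hA : ∀ p ∈ A, p.2 ∈ N p.1) (hO : ∀ p ∈ O, p.2 ∈ N p.1)
    (r : V → V → Prop) (ω : V → ZMod M) :
    muW (W3 N A O x r) (B3 N A O x r) ω ≤ ((outN O x).card : ℝ) / M := by
  unfold muW
  have hM : (0 : ℝ) < M := by
    have := NeZero.ne M
    positivity
  have h1 : ∀ v ∈ Finset.univ.filter (fun v => v ∉ W3 N A O x r),
      ((B3 N A O x r ω v).card : ℝ) / Fintype.card (ZMod M) ≤ 1 / M := by
    intro v hv
    simp only [W3, Finset.mem_filter, Finset.mem_univ, true_and, not_not] at hv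
    have hvx : v ≠ x := by
      rintro rfl
      exact hN.irr _ (hO _ hv.1)
    rw [ZMod.card]
    apply div_le_div_of_nonneg_right _ hM.le
    have h2 : (B3 N A O x r ω v).card ≤ 1 := by
      unfold B3
      rw [if_pos hv.1]
      refine Finset.card_image_le.trans ?_
      rw [Finset.card_le_one]
      intro a ha b hb
      simp only [Finset.mem_filter] at ha hb
      exact one3 hN hA hvx ha.1 hb.1 ha.2.1 hb.2.1
    exact_mod_cast h2
  refine (Finset.sum_le_sum h1).trans ?_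
  rw [Finset.sum_const, nsmul_eq_mul, mul_one_div]
  apply div_le_div_of_nonneg_right _ hM.le
  rw [Nat.cast_le]
  apply Finset.card_le_card
  intro v hv
  simp only [W3, Finset.mem_filter, Finset.mem_univ, true_and, not_not] at hv
  exact mem_outN.2 hv.1

theorem dep3 (hN : IsNbd N) (hA : ∀ p ∈ A, p.2 ∈ N p.1) (hO : ∀ p ∈ O, p.2 ∈ N p.1)
    (r : V → V → Prop) (hr : ∀ a b, r a b → ¬ r b a) (ω ω' : V → ZMod M)
    (h : ∀ v ∈ W3 N A O x r, ω v = ω' v) : B3 N A O x r ω = B3 N A O x r ω' := by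
  funext v
  unfold B3
  split_ifs with hv
  · apply Finset.image_congr
    intro u hu
    simp only [Finset.coe_filter, Set.mem_ofPred_eq] at hu
    apply h
    simp only [W3, Finset.mem_filter, Finset.mem_univ, true_and]
    rintro ⟨h1, u', h2, h3, h4⟩
    have hux : u ≠ x := by
      rintro rfl
      exact hN.irr _ hu.1
    have h5 : u' = v := uniq hN hux h2 (hO _ hv) (hN.symm _ _ (hA _ h3)) (hA _ hu.2.1)
    rw [h5] at h4
    exact hr _ _ h4 hu.2.2
  · rfl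

theorem evP3 {k s q : ℕ} (hC : CHFStmt) (hk : LNum k) (hp : Par k M s q) (hN : IsNbd N)
    (hA : ∀ p ∈ A, p.2 ∈ N p.1) (hO : ∀ p ∈ O, p.2 ∈ N p.1) (hd' : (outN O x).card ≤ k)
    (r : V → V → Prop) (hr : ∀ a b, r a b → ¬ r b a) :
    ((Finset.univ.filter fun ω : V → ZMod M => 3 * (k : ℝ) ^ (0.47 : ℝ) ≤
      ((∑ y ∈ outN O x, cc A (fun u => u ∈ N x ∧ r y u) ω y : ℕ) : ℝ)).card : ℝ) ≤
      1 / 100 * (k : ℝ) ^ (-40 : ℝ) * (M : ℝ) ^ Fintype.card V := by
  have hf := lfac hk hp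
  have hk0 := hf.k0
  have h := (hC V (ZMod M) (W3 N A O x r) (B3 N A O x r) (dep3 hN hA hO r hr)
    (Finset.univ.filter fun ω : V → ZMod M => 3 * (k : ℝ) ^ (0.47 : ℝ) ≤
      ((∑ y ∈ outN O x, cc A (fun u => u ∈ N x ∧ r y u) ω y : ℕ) : ℝ))).1
    ((k : ℝ) ^ (0.01 : ℝ)) (Real.rpow_pos_of_pos hk0 _).le (by
      intro ω hω
      simp only [Finset.mem_filter, Finset.mem_univ, true_and] at hω
      have h1 : ((∑ y ∈ outN O x, cc A (fun u => u ∈ N x ∧ r y u) ω y : ℕ) : ℝ) ≤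
          cntW (W3 N A O x r) (B3 N A O x r) ω := by
        exact_mod_cast cnt3 hN hA hO r ω
      have h2 := mu3 hN hA hO r ω (x := x)
      have h3 : ((outN O x).card : ℝ) ≤ k := by exact_mod_cast hd'
      have h4 := (div_le_div_of_nonneg_right h3 hf.M0.le).trans hf.kM
      have := hf.a2
      linarith)
  rw [ZMod.card] at h
  refine h.trans ?_
  have h2 := hk.n3
  rw [one_mul] at h2
  have h3 : (0 : ℝ) < (M : ℝ) ^ Fintype.card V := pow_pos hf.M0 _
  exact mul_le_mul_of_nonneg_right h2 h3.le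

/-! ### the sum -/

theorem splitC (hN : IsNbd N) (ω : V → ZMod M) (y : V) : (inN (As A ω) y).card =
    cc A (fun u => u ∉ insert x (N x)) ω y + cc A (fun u => u = x) ω y +
      cc A (fun u => u ∈ N x) ω y := by
  unfold inN As cc
  simp only [Finset.card_filter, Set.mem_ofPred_eq, Finset.mem_insert, not_or]
  rw [← Finset.sum_add_distrib, ← Finset.sum_add_distrib]
  apply Finset.sum_congr rfl
  intro u _
  have hx := hN.irr x
  by_cases h1 : u = x
  · subst h1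
    simp [hx]
  · by_cases h2 : u ∈ N x
    · simp [h1, h2]
    · simp [h1, h2]

theorem splitD (hN : IsNbd N) (y : V) : (inN A y).card =
    dd A (fun u => u ∉ insert x (N x)) y + dd A (fun u => u = x) y +
      dd A (fun u => u ∈ N x) y := by
  unfold inN dd
  simp only [Finset.card_filter, Finset.mem_insert, not_or]
  rw [← Finset.sum_add_distrib, ← Finset.sum_add_distrib]
  apply Finset.sum_congr rfl
  intro u _
  have hx := hN.irr x
  by_cases h1 : u = x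
  · subst h1
    simp [hx]
  · by_cases h2 : u ∈ N x
    · simp [h1, h2]
    · simp [h1, h2]

theorem ccx (ω : V → ZMod M) : ∑ y ∈ outN O x, cc A (fun u => u = x) ω y ≤
    (outN (As A ω) x).card := by
  have h1 : ∀ y ∈ outN O x, cc A (fun u => u = x) ω y ≤
      if y ∈ outN (As A ω) x then 1 else 0 := by
    intro y _
    unfold cc
    split_ifs with h
    · rw [Finset.card_le_one]
      intro a ha b hb
      simp only [Finset.mem_filter, Finset.mem_univ, true_and] at ha hb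
      rw [ha.1, hb.1]
    · rw [Nat.le_zero, Finset.card_eq_zero]
      ext a
      simp only [Finset.mem_filter, Finset.mem_univ, true_and, Finset.notMem_empty, iff_false]
      rintro ⟨rfl, h4, h5⟩
      exact h (mem_outN.2 ⟨h4, h5⟩)
  refine (Finset.sum_le_sum h1).trans ?_
  rw [← Finset.card_filter]
  apply Finset.card_le_card
  intro y hy
  exact (Finset.mem_filter.1 hy).2

theorem ddx : ∑ y ∈ outN O x, dd A (fun u => u = x) y ≤ (outN O x).card := by
  rw [Finset.card_eq_sum_ones]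
  apply Finset.sum_le_sum
  intro y _
  unfold dd
  rw [Finset.card_le_one]
  intro a ha b hb
  simp only [Finset.mem_filter, Finset.mem_univ, true_and] at ha hb
  rw [ha.1, hb.1]

theorem ddN (hN : IsNbd N) (hA : ∀ p ∈ A, p.2 ∈ N p.1) (hO : ∀ p ∈ O, p.2 ∈ N p.1) :
    ∑ y ∈ outN O x, dd A (fun u => u ∈ N x) y ≤ (outN O x).card := by
  rw [Finset.card_eq_sum_ones]
  apply Finset.sum_le_sum
  intro y hy
  have hyx : y ≠ x := by
    rintro rfl
    exact hN.irr _ (hO _ (mem_outN.1 hy))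
  unfold dd
  rw [Finset.card_le_one]
  intro a ha b hb
  simp only [Finset.mem_filter, Finset.mem_univ, true_and] at ha hb
  exact one3 hN hA hyx ha.1 hb.1 ha.2 hb.2

theorem ccN (hN : IsNbd N) (hA : ∀ p ∈ A, p.2 ∈ N p.1) (r : V → V → Prop)
    (hr : ∀ a b, a ≠ b → r a b ∨ r b a) (ω : V → ZMod M) (y : V) :
    cc A (fun u => u ∈ N x) ω y ≤ cc A (fun u => u ∈ N x ∧ r y u) ω y +
      cc A (fun u => u ∈ N x ∧ r u y) ω y := by
  unfold cc
  refine le_trans (Finset.card_le_card ?_) (Finset.card_union_le _ _)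
  intro u hu
  simp only [Finset.mem_filter, Finset.mem_univ, true_and, Finset.mem_union] at hu ⊢
  have hne : y ≠ u := by
    rintro rfl
    exact hN.irr _ (hA _ hu.2.1)
  rcases hr y u hne with h | h
  · exact Or.inl ⟨⟨hu.1, h⟩, hu.2⟩
  · exact Or.inr ⟨⟨hu.1, h⟩, hu.2⟩

theorem evS {k s q : ℕ} (hC : CHFStmt) (hk : LNum k) (hp : Par k M s q) (hN : IsNbd N)
    (hA : ∀ p ∈ A, p.2 ∈ N p.1) (hO : ∀ p ∈ O, p.2 ∈ N p.1)
    (hdo : (outN A x).card ≤ k) (hd : ∀ y, (inN A y).card ≤ k) (hd' : (outN O x).card ≤ k) :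
    ((Finset.univ.filter fun ω : V → ZMod M =>
      ¬ |∑ y ∈ outN O x, am A ω y| ≤ s * (k : ℝ) ^ (-0.1 : ℝ)).card : ℝ) ≤
      6 / 100 * (k : ℝ) ^ (-40 : ℝ) * (M : ℝ) ^ Fintype.card V := by
  have hf := lfac hk hp
  have hk0 := hf.k0
  let e := Fintype.equivFin V
  let r : V → V → Prop := fun a b => e a < e b
  let r' : V → V → Prop := fun a b => e b < e a
  have b1 := evP1 hC hk hp hN hA hdo
  have b2 := evP2 hC hk hp hN hA hO hd hd'
  have b3 := evP3 hC hk hp hN hA hO hd' r (fun a b h => lt_asymm h)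
  have b4 := evP3 hC hk hp hN hA hO hd' r' (fun a b h => lt_asymm h)
  set P1 := Finset.univ.filter fun h : V → ZMod M => ¬ |ap A h x| ≤ (k : ℝ) ^ (0.24 : ℝ)
  set P2 := Finset.univ.filter fun ω : V → ZMod M => s * (k : ℝ) ^ (-0.1 : ℝ) / 2 ≤
      |((∑ y ∈ outN O x, cc A (fun u => u ∉ insert x (N x)) ω y : ℕ) : ℝ) -
        ((∑ y ∈ outN O x, dd A (fun u => u ∉ insert x (N x)) y : ℕ) : ℝ) / M|
  set P3 := Finset.univ.filter fun ω : V → ZMod M => 3 * (k : ℝ) ^ (0.47 : ℝ) ≤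
      ((∑ y ∈ outN O x, cc A (fun u => u ∈ N x ∧ r y u) ω y : ℕ) : ℝ)
  set P4 := Finset.univ.filter fun ω : V → ZMod M => 3 * (k : ℝ) ^ (0.47 : ℝ) ≤
      ((∑ y ∈ outN O x, cc A (fun u => u ∈ N x ∧ r' y u) ω y : ℕ) : ℝ)
  have hsub : (Finset.univ.filter fun ω : V → ZMod M =>
      ¬ |∑ y ∈ outN O x, am A ω y| ≤ s * (k : ℝ) ^ (-0.1 : ℝ)) ⊆ P1 ∪ P2 ∪ (P3 ∪ P4) := by
    intro ω hω
    by_contra hcon
    simp only [Finset.mem_union, not_or, P1, P2, P3, P4, Finset.mem_filter, Finset.mem_univ,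
      true_and, not_le, not_lt] at hcon
    obtain ⟨⟨h1, h2⟩, h3, h4⟩ := hcon
    simp only [Finset.mem_filter, Finset.mem_univ, true_and] at hω
    apply hω
    have hM0 := hf.M0
    have e1 : ∑ y ∈ outN O x, am A ω y =
        (((∑ y ∈ outN O x, cc A (fun u => u ∉ insert x (N x)) ω y : ℕ) : ℝ) -
          ((∑ y ∈ outN O x, dd A (fun u => u ∉ insert x (N x)) y : ℕ) : ℝ) / M) +
        (((∑ y ∈ outN O x, cc A (fun u => u = x) ω y : ℕ) : ℝ) -
          ((∑ y ∈ outN O x, dd A (fun u => u = x) y : ℕ) : ℝ) / M) +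
        (((∑ y ∈ outN O x, cc A (fun u => u ∈ N x) ω y : ℕ) : ℝ) -
          ((∑ y ∈ outN O x, dd A (fun u => u ∈ N x) y : ℕ) : ℝ) / M) := by
      have e2 : ∀ y ∈ outN O x, am A ω y =
          ((cc A (fun u => u ∉ insert x (N x)) ω y : ℝ) -
            (dd A (fun u => u ∉ insert x (N x)) y : ℝ) / M) +
          ((cc A (fun u => u = x) ω y : ℝ) - (dd A (fun u => u = x) y : ℝ) / M) +
          ((cc A (fun u => u ∈ N x) ω y : ℝ) - (dd A (fun u => u ∈ N x) y : ℝ) / M) := by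
        intro y _
        unfold am
        rw [splitC hN ω y (x := x), splitD hN y (x := x)]
        push_cast
        ring
      rw [Finset.sum_congr rfl e2, Finset.sum_add_distrib, Finset.sum_add_distrib,
        Finset.sum_sub_distrib, Finset.sum_sub_distrib, Finset.sum_sub_distrib]
      push_cast
      simp only [Finset.sum_div]
    have c2 : ((∑ y ∈ outN O x, cc A (fun u => u = x) ω y : ℕ) : ℝ) ≤
        2 * (k : ℝ) ^ (0.47 : ℝ) := by
      have h5 : ((∑ y ∈ outN O x, cc A (fun u => u = x) ω y : ℕ) : ℝ) ≤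
          (outN (As A ω) x).card := by exact_mod_cast ccx ω
      have h6 : ((outN A x).card : ℝ) ≤ k := by exact_mod_cast hdo
      have h7 := (div_le_div_of_nonneg_right h6 hM0.le).trans hf.kM
      have h8 := (abs_le.1 h1).2
      unfold ap at h8
      have := hf.a1
      linarith
    have c3 : ((∑ y ∈ outN O x, cc A (fun u => u ∈ N x) ω y : ℕ) : ℝ) ≤
        6 * (k : ℝ) ^ (0.47 : ℝ) := by
      have h5 : ((∑ y ∈ outN O x, cc A (fun u => u ∈ N x) ω y : ℕ) : ℝ) ≤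
          ((∑ y ∈ outN O x, cc A (fun u => u ∈ N x ∧ r y u) ω y : ℕ) : ℝ) +
          ((∑ y ∈ outN O x, cc A (fun u => u ∈ N x ∧ r' y u) ω y : ℕ) : ℝ) := by
        rw [← Nat.cast_add, Nat.cast_le, ← Finset.sum_add_distrib]
        apply Finset.sum_le_sum
        intro y _
        apply ccN hN hA r
        intro a b hab
        exact lt_or_gt_of_ne (fun h => hab (e.injective h))
      linarith
    have hOk : ((outN O x).card : ℝ) ≤ k := by exact_mod_cast hd'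
    have d2 : ((∑ y ∈ outN O x, dd A (fun u => u = x) y : ℕ) : ℝ) / M ≤
        (k : ℝ) ^ (0.47 : ℝ) := by
      have h5 : ((∑ y ∈ outN O x, dd A (fun u => u = x) y : ℕ) : ℝ) ≤
          (outN O x).card := by exact_mod_cast ddx
      exact (div_le_div_of_nonneg_right (h5.trans hOk) hM0.le).trans hf.kM
    have d3 : ((∑ y ∈ outN O x, dd A (fun u => u ∈ N x) y : ℕ) : ℝ) / M ≤
        (k : ℝ) ^ (0.47 : ℝ) := by
      have h5 : ((∑ y ∈ outN O x, dd A (fun u => u ∈ N x) y : ℕ) : ℝ) ≤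
          (outN O x).card := by exact_mod_cast ddN hN hA hO
      exact (div_le_div_of_nonneg_right (h5.trans hOk) hM0.le).trans hf.kM
    have c2' : (0 : ℝ) ≤ ((∑ y ∈ outN O x, cc A (fun u => u = x) ω y : ℕ) : ℝ) :=
      Nat.cast_nonneg _
    have c3' : (0 : ℝ) ≤ ((∑ y ∈ outN O x, cc A (fun u => u ∈ N x) ω y : ℕ) : ℝ) :=
      Nat.cast_nonneg _
    have d2' : (0 : ℝ) ≤ ((∑ y ∈ outN O x, dd A (fun u => u = x) y : ℕ) : ℝ) / M :=
      div_nonneg (Nat.cast_nonneg _) hM0.le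
    have d3' : (0 : ℝ) ≤ ((∑ y ∈ outN O x, dd A (fun u => u ∈ N x) y : ℕ) : ℝ) / M :=
      div_nonneg (Nat.cast_nonneg _) hM0.le
    rw [e1]
    have hs2 := hf.s2
    have hpos : (0 : ℝ) < (k : ℝ) ^ (0.47 : ℝ) := Real.rpow_pos_of_pos hk0 _
    have h2' := abs_lt.1 h2
    rw [abs_le]
    constructor
    · linarith [h2'.1]
    · linarith [h2'.2]
  have hcard : ((Finset.univ.filter fun ω : V → ZMod M =>
      ¬ |∑ y ∈ outN O x, am A ω y| ≤ s * (k : ℝ) ^ (-0.1 : ℝ)).card : ℝ) ≤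
      P1.card + P2.card + (P3.card + P4.card) := by
    have h5 := (Finset.card_le_card hsub).trans (Finset.card_union_le _ _)
    have h6 := Finset.card_union_le P1 P2
    have h7 := Finset.card_union_le P3 P4
    have h8 : (Finset.univ.filter fun ω : V → ZMod M =>
      ¬ |∑ y ∈ outN O x, am A ω y| ≤ s * (k : ℝ) ^ (-0.1 : ℝ)).card ≤
      P1.card + P2.card + (P3.card + P4.card) := by omega
    exact_mod_cast h8
  linarith

end fixed

/-! ## reversal -/

section rev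

variable {V : Type} [Fintype V] {M : ℕ} [NeZero M]

/-- the reversed arcs -/
def rv (A : Set (V × V)) : Set (V × V) := {p | (p.2, p.1) ∈ A}

theorem outN_rv (A : Set (V × V)) (x : V) : outN (rv A) x = inN A x := rfl

theorem inN_rv (A : Set (V × V)) (x : V) : inN (rv A) x = outN A x := rfl

theorem As_rv (A : Set (V × V)) (h : V → ZMod M) : As (rv A) h = rv (As A h) := by
  ext p
  simp only [As, rv, Set.mem_ofPred_eq]
  constructor
  · rintro ⟨h1, h2⟩; exact ⟨h1, h2.symm⟩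
  · rintro ⟨h1, h2⟩; exact ⟨h1, h2.symm⟩

theorem ap_rv (A : Set (V × V)) (h : V → ZMod M) (x : V) : ap (rv A) h x = am A h x := by
  unfold ap am
  rw [As_rv, outN_rv, outN_rv]

theorem am_rv (A : Set (V × V)) (h : V → ZMod M) (x : V) : am (rv A) h x = ap A h x := by
  unfold ap am
  rw [As_rv, inN_rv, inN_rv]

theorem rv_nbd {N : V → Finset V} (hN : IsNbd N) {A : Set (V × V)}
    (hA : ∀ p ∈ A, p.2 ∈ N p.1) : ∀ p ∈ rv A, p.2 ∈ N p.1 :=
  fun _ hp => hN.symm _ _ (hA _ hp)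

end rev

/-! ## all groups -/

theorem Rg_repl {V : Type} {M : ℕ} (R : Set (V × V)) (H : V → Fin 40 → ZMod M) (g : Fin 40)
    (h : V → ZMod M) : Rg R (repl g H h) g = Rg R H g := by
  ext p
  simp only [Rg, Set.mem_ofPred_eq, repl]
  constructor
  · rintro ⟨h1, h2⟩
    refine ⟨h1, fun i hi => ?_⟩
    have h3 := h2 i hi
    have hne : i ≠ g := fun h => by rw [h] at hi; exact lt_irrefl _ hi
    rwa [if_neg hne, if_neg hne] at h3
  · rintro ⟨h1, h2⟩
    refine ⟨h1, fun i hi => ?_⟩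
    have h3 := h2 i hi
    have hne : i ≠ g := fun h => by rw [h] at hi; exact lt_irrefl _ hi
    rwa [if_neg hne, if_neg hne]

theorem Rg_repl' {V : Type} {M : ℕ} (R : Set (V × V)) (H : V → Fin 40 → ZMod M) (g : Fin 40)
    (h : V → ZMod M) : Rg R (repl g H h) (g + 1) = As (Rg R H g) h := by
  rw [← Rg_repl R H g h]
  ext p
  simp only [Rg, As, Set.mem_ofPred_eq]
  constructor
  · rintro ⟨h1, h2⟩
    refine ⟨⟨h1, fun i hi => h2 i (Nat.lt_succ_of_lt hi)⟩, ?_⟩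
    have h3 := h2 g (Nat.lt_succ_self _)
    simpa only [repl, if_true] using h3
  · rintro ⟨⟨h1, h2⟩, h3⟩
    refine ⟨h1, fun i hi => ?_⟩
    rcases Nat.lt_succ_iff_lt_or_eq.1 hi with h4 | h4
    · exact h2 i h4
    · have h5 : i = g := Fin.ext h4
      rw [h5]
      simpa only [repl, if_true] using h3

/-- LFT -/
theorem lft (hC : CHFStmt) (hM : MRGStmt) : LFTStmt := by
  obtain ⟨k0, hk0⟩ := lnum
  refine ⟨k0, fun k M s q _ _ hk hp V _ N hN R O hR hO hdeg g x => ?_⟩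
  have hn := hk0 k hk
  have hf := lfac hn hp
  have hpos : (0 : ℝ) < (k : ℝ) ^ (-40 : ℝ) := Real.rpow_pos_of_pos hf.k0 _
  apply hM V (ZMod M) 40 g
    (Finset.univ.filter fun H : V → Fin 40 → ZMod M => ¬ LGood k s R O H g x)
    ((k : ℝ) ^ (-40 : ℝ)) hpos.le
  intro H
  set A := Rg R H g with hAdef
  have hAR : ∀ p ∈ A, p ∈ R := fun p hp => hp.1
  have hA : ∀ p ∈ A, p.2 ∈ N p.1 := fun p hp => hR p (hAR p hp)
  have ho : ∀ y, (outN A y).card ≤ k := fun y => by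
    refine (Finset.card_le_card ?_).trans (hdeg y).1
    intro u hu
    simp only [outN, Finset.mem_filter, Finset.mem_univ, true_and] at hu ⊢
    exact hAR _ hu
  have hi : ∀ y, (inN A y).card ≤ k := fun y => by
    refine (Finset.card_le_card ?_).trans (hdeg y).2.1
    intro u hu
    simp only [inN, Finset.mem_filter, Finset.mem_univ, true_and] at hu ⊢
    exact hAR _ hu
  have b1 := evP1 (x := x) hC hn hp hN hA (ho x)
  have b2 : ((Finset.univ.filter fun h : V → ZMod M =>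
      ¬ |am A h x| ≤ (k : ℝ) ^ (0.24 : ℝ)).card : ℝ) ≤
      2 / 100 * (k : ℝ) ^ (-40 : ℝ) * (M : ℝ) ^ Fintype.card V := by
    have e : (Finset.univ.filter fun h : V → ZMod M => ¬ |am A h x| ≤ (k : ℝ) ^ (0.24 : ℝ)) =
        Finset.univ.filter fun h : V → ZMod M => ¬ |ap (rv A) h x| ≤ (k : ℝ) ^ (0.24 : ℝ) := by
      ext h
      simp only [Finset.mem_filter, ap_rv]
    rw [e]
    exact evP1 (x := x) hC hn hp hN (rv_nbd hN hA) (by rw [outN_rv]; exact hi x)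
  have b3 := evS (x := x) hC hn hp hN hA hO (ho x) hi (hdeg x).2.2.1
  have b4 : ((Finset.univ.filter fun ω : V → ZMod M =>
      ¬ |∑ y ∈ inN O x, ap A ω y| ≤ s * (k : ℝ) ^ (-0.1 : ℝ)).card : ℝ) ≤
      6 / 100 * (k : ℝ) ^ (-40 : ℝ) * (M : ℝ) ^ Fintype.card V := by
    have e : (Finset.univ.filter fun ω : V → ZMod M =>
        ¬ |∑ y ∈ inN O x, ap A ω y| ≤ s * (k : ℝ) ^ (-0.1 : ℝ)) =
        Finset.univ.filter fun ω : V → ZMod M =>
        ¬ |∑ y ∈ outN (rv O) x, am (rv A) ω y| ≤ s * (k : ℝ) ^ (-0.1 : ℝ) := by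
      ext h
      simp only [Finset.mem_filter, am_rv, outN_rv]
    rw [e]
    exact evS (x := x) hC hn hp hN (rv_nbd hN hA) (rv_nbd hN hO)
      (by rw [outN_rv]; exact hi x) (fun y => by rw [inN_rv]; exact ho y)
      (by rw [outN_rv]; exact (hdeg x).2.2.2)
  have hsub : (Finset.univ.filter fun h : V → ZMod M => repl g H h ∈
      Finset.univ.filter fun H : V → Fin 40 → ZMod M => ¬ LGood k s R O H g x) ⊆
      ((Finset.univ.filter fun h : V → ZMod M => ¬ |ap A h x| ≤ (k : ℝ) ^ (0.24 : ℝ)) ∪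
        (Finset.univ.filter fun h : V → ZMod M => ¬ |am A h x| ≤ (k : ℝ) ^ (0.24 : ℝ))) ∪
      ((Finset.univ.filter fun ω : V → ZMod M =>
        ¬ |∑ y ∈ outN O x, am A ω y| ≤ s * (k : ℝ) ^ (-0.1 : ℝ)) ∪
        (Finset.univ.filter fun ω : V → ZMod M =>
        ¬ |∑ y ∈ inN O x, ap A ω y| ≤ s * (k : ℝ) ^ (-0.1 : ℝ))) := by
    intro h hh
    by_contra hcon
    simp only [Finset.mem_union, not_or, Finset.mem_filter, Finset.mem_univ, true_and,
      not_not] at hcon hh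
    obtain ⟨⟨h1, h2⟩, h3, h4⟩ := hcon
    have f1 : ∀ y, flp R (repl g H h) g y = ap A h y := by
      intro y
      unfold flp ap
      rw [Rg_repl', Rg_repl]
    have f2 : ∀ y, flm R (repl g H h) g y = am A h y := by
      intro y
      unfold flm am
      rw [Rg_repl', Rg_repl]
    apply hh
    exact ⟨by rw [f1]; exact h1, by rw [f2]; exact h2,
      by simp only [f2]; exact h3, by simp only [f1]; exact h4⟩
  have hcard := (Finset.card_le_card hsub).trans ((Finset.card_union_le _ _).trans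
    (add_le_add (Finset.card_union_le _ _) (Finset.card_union_le _ _)))
  have hcard' : ((Finset.univ.filter fun h : V → ZMod M => repl g H h ∈
      Finset.univ.filter fun H : V → Fin 40 → ZMod M => ¬ LGood k s R O H g x).card : ℝ) ≤
      ((Finset.univ.filter fun h : V → ZMod M => ¬ |ap A h x| ≤ (k : ℝ) ^ (0.24 : ℝ)).card : ℝ) +
      ((Finset.univ.filter fun h : V → ZMod M => ¬ |am A h x| ≤ (k : ℝ) ^ (0.24 : ℝ)).card : ℝ) +
      (((Finset.univ.filter fun ω : V → ZMod M =>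
        ¬ |∑ y ∈ outN O x, am A ω y| ≤ s * (k : ℝ) ^ (-0.1 : ℝ)).card : ℝ) +
      ((Finset.univ.filter fun ω : V → ZMod M =>
        ¬ |∑ y ∈ inN O x, ap A ω y| ≤ s * (k : ℝ) ^ (-0.1 : ℝ)).card : ℝ)) := by
    exact_mod_cast hcard
  have hMV : (0 : ℝ) < (M : ℝ) ^ Fintype.card V := pow_pos hf.M0 _
  have hprod : 0 < (k : ℝ) ^ (-40 : ℝ) * (M : ℝ) ^ Fintype.card V := mul_pos hpos hMV
  rw [ZMod.card]
  have hfin := hcard'.trans (show _ ≤ (k : ℝ) ^ (-40 : ℝ) * (M : ℝ) ^ Fintype.card V by linarith)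
  refine le_trans (le_of_eq ?_) hfin
  rw [Nat.cast_inj]
  apply congrArg
  ext h
  simp only [Finset.mem_filter]

end Pool.Agent.C4W.H66
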